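import Pool.Agent.H84.FK.Targets

/-!
# fk_modules, row OV: the unique maximal subgroup containing `A`
-/

set_option linter.unusedVariables false

namespace Pool.Agent.H21.FK

open Pool.Agent.H84.FK

section

variable {G : Type} [Group G] {A B B0 : Subgroup G}

/-- the set `B0 A` -/
def S1 (A B0 : Subgroup G) : Set G := {g | ∃ b ∈ B0, ∃ a ∈ A, g = b * a}

theorem fac' (h : CE G A B B0) (g : G) : ∃ b ∈ B, ∃ a ∈ A, g = b * a := by
  obtain ⟨a, ha, b, hb, hg⟩ := h.fac g⁻¹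
  exact ⟨b⁻¹, B.inv_mem hb, a⁻¹, A.inv_mem ha, by rw [← mul_inv_rev, ← hg, inv_inv]⟩

theorem cap (hC3 : T_C3) (h : CE G A B B0) {x : G} (hA : x ∈ A) (hB : x ∈ B) : x = 1 :=
  hC3 G A B B0 h 1 x x hA hB (by simp)

theorem memS1 (hC3 : T_C3) (h : CE G A B B0) {b a : G} (hb : b ∈ B) (ha : a ∈ A) :
    b * a ∈ S1 A B0 ↔ b ∈ B0 := by
  constructor
  · rintro ⟨b', hb', a', ha', he⟩
    have h1 : b'⁻¹ * b = a' * a⁻¹ := by
      rw [inv_mul_eq_iff_eq_mul, ← mul_assoc, ← he, mul_inv_cancel_right]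
    have h2 : b'⁻¹ * b ∈ A := by
      rw [h1]
      exact A.mul_mem ha' (A.inv_mem ha)
    have h3 : b'⁻¹ * b ∈ B := B.mul_mem (B.inv_mem (h.two.1 hb')) hb
    have h4 := cap hC3 h h2 h3
    rw [inv_mul_eq_one] at h4
    rw [← h4]
    exact hb'
  · intro hb0
    exact ⟨b, hb0, a, ha, rfl⟩

theorem in_B0 (h : CE G A B B0) {x y : G} (hx : x ∈ B) (hy : y ∈ B) (nx : x ∉ B0) :
    x * y ∈ B0 ↔ y ∉ B0 := by
  constructor
  · intro hxy hy0
    exact nx (by
      have := B0.mul_mem hxy (B0.inv_mem hy0)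
      rwa [mul_inv_cancel_right] at this)
  · intro ny
    exact h.two.2 x hx y hy nx ny

theorem in_B0' (h : CE G A B B0) {x y : G} (hx : x ∈ B) (hy : y ∈ B) (ny : y ∉ B0) :
    x * y ∈ B0 ↔ x ∉ B0 := by
  constructor
  · intro hxy hx0
    exact ny (by
      have := B0.mul_mem (B0.inv_mem hx0) hxy
      rwa [inv_mul_cancel_left] at this)
  · intro nx
    exact h.two.2 x hx y hy nx ny

/-- the stabiliser of the partition `S1`, complement -/
def MM (A B0 : Subgroup G) : Subgroup G where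
  carrier := {g | (∀ s, s ∈ S1 A B0 ↔ s * g ∈ S1 A B0) ∨ ∀ s, s ∈ S1 A B0 ↔ s * g ∉ S1 A B0}
  one_mem' := Or.inl fun s => by rw [mul_one]
  mul_mem' := by
    rintro g k (hg | hg) (hk | hk)
    · refine Or.inl fun s => ?_
      rw [← mul_assoc, ← hk (s * g), ← hg s]
    · refine Or.inr fun s => ?_
      rw [← mul_assoc, ← hk (s * g), ← hg s]
    · refine Or.inr fun s => ?_
      rw [← mul_assoc, ← hk (s * g), hg s]
    · refine Or.inl fun s => ?_
      rw [← mul_assoc, hg s, hk (s * g), not_not]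
  inv_mem' := by
    rintro g (hg | hg)
    · refine Or.inl fun s => ?_
      rw [hg (s * g⁻¹), inv_mul_cancel_right]
    · refine Or.inr fun s => ?_
      have := hg (s * g⁻¹)
      rw [inv_mul_cancel_right] at this
      rw [this, not_not]

/-- the stabiliser of `S1` -/
def SG (A B0 : Subgroup G) : Subgroup G where
  carrier := {g | ∀ s, s ∈ S1 A B0 ↔ s * g ∈ S1 A B0}
  one_mem' := fun s => by rw [mul_one]
  mul_mem' := by
    intro g k hg hk s
    rw [← mul_assoc, ← hk (s * g), ← hg s]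
  inv_mem' := by
    intro g hg s
    rw [hg (s * g⁻¹), inv_mul_cancel_right]

theorem SG_le : SG A B0 ≤ MM A B0 := fun g hg => Or.inl hg

theorem A_le (A B0 : Subgroup G) : A ≤ SG A B0 := by
  intro a ha s
  constructor
  · rintro ⟨b, hb, a', ha', rfl⟩
    exact ⟨b, hb, a' * a, A.mul_mem ha' ha, by rw [mul_assoc]⟩
  · rintro ⟨b, hb, a', ha', he⟩
    refine ⟨b, hb, a' * a⁻¹, A.mul_mem ha' (A.inv_mem ha), ?_⟩
    rw [← mul_assoc, ← he, mul_inv_cancel_right]

/-- subgroups which contain `A` are factorised -/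
theorem facL (h : CE G A B B0) {L : Subgroup G} (hL : A ≤ L) (g : G) (hg : g ∈ L) :
    ∃ a ∈ A, a ∈ L ∧ ∃ b ∈ B, b ∈ L ∧ g = a * b := by
  obtain ⟨a, ha, b, hb, hab⟩ := h.fac g
  refine ⟨a, ha, hL ha, b, hb, ?_, hab⟩
  have : b = a⁻¹ * g := by rw [hab, inv_mul_cancel_left]
  rw [this]
  exact L.mul_mem (L.inv_mem (hL ha)) hg

theorem solL (h : CE G A B B0) {L : Subgroup G} (hL : A ≤ L) (hne : L ≠ ⊤) :
    Group.IsSolvable L := h.sub L hne (facL h hL)

/-- `A` is not trivial -/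
theorem A_ne (hS2 : T_S2) (h : CE G A B B0) : A ≠ ⊥ := by
  intro hA
  apply h.ns
  have hB : ∀ g : G, g ∈ B := by
    intro g
    obtain ⟨a, ha, b, hb, rfl⟩ := h.fac g
    rw [hA, Subgroup.mem_bot] at ha
    rw [ha, one_mul]
    exact hb
  exact hS2 G B0 h.abB fun x y hx hy => h.two.2 x (hB x) y (hB y) hx hy

/-- no proper subgroup which contains `A` is normal -/
theorem not_nor (hS2 : T_S2) (h : CE G A B B0) {L : Subgroup G} (hL : A ≤ L) (hne : L ≠ ⊤) :
    ¬ L.Normal := by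
  intro hn
  have h1 := h.quo L hn (solL h hL hne)
  exact A_ne hS2 h (le_bot_iff.1 (h1 ▸ hL))

/-- elements of `L ∩ B0` whose conjugate is also in `L` -/
theorem kx (h : CE G A B B0) {L : Subgroup G} (hL : A ≤ L) (hne : L ≠ ⊤) {t x : G} (ht : t ∈ B)
    (nt : t ∉ B0) (hx : x ∈ L) (hx0 : x ∈ B0) (htx : t * x * t⁻¹ ∈ L) : x = 1 := by
  have ntinv : t⁻¹ ∉ B0 := fun hh => nt (by simpa using B0.inv_mem hh)
  -- `t x t⁻¹ ∈ B0`
  have hB0 : t * x * t⁻¹ ∈ B0 := by
    have hxB : x ∈ B := h.two.1 hx0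
    rw [in_B0' h (B.mul_mem ht hxB) (B.inv_mem ht) ntinv]
    rw [in_B0 h ht hxB nt]
    exact fun hh => hh hx0
  have hconj : ∀ g : G, g * x * g⁻¹ ∈ L := by
    intro g
    obtain ⟨a, ha, b, hb, rfl⟩ := h.fac g
    have h1 : b * x * b⁻¹ ∈ L := by
      by_cases hb0 : b ∈ B0
      · rw [h.abB b hb0 x hx0, mul_inv_cancel_right]
        exact hx
      · have h2 : b * t⁻¹ ∈ B0 := h.two.2 b hb t⁻¹ (B.inv_mem ht) hb0 ntinv
        have h3 : b * x * b⁻¹ = (b * t⁻¹) * (t * x * t⁻¹) * (b * t⁻¹)⁻¹ := by group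
        rw [h3, h.abB _ h2 _ hB0, mul_inv_cancel_right]
        exact htx
    have h4 : a * b * x * (a * b)⁻¹ = a * (b * x * b⁻¹) * a⁻¹ := by group
    rw [h4]
    exact L.mul_mem (L.mul_mem (hL ha) h1) (L.inv_mem (hL ha))
  have hle : Subgroup.normalClosure {x} ≤ L := by
    unfold Subgroup.normalClosure
    rw [Subgroup.closure_le]
    intro y hy
    rw [Group.mem_conjugatesOfSet_iff] at hy
    obtain ⟨z, hz, hzy⟩ := hy
    rw [Set.mem_singleton_iff.1 hz, isConj_iff] at hzy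
    obtain ⟨c, rfl⟩ := hzy
    exact hconj c
  have hsol : Group.IsSolvable (Subgroup.normalClosure {x}) := by
    have := solL h hL hne
    exact Group.isSolvable_of_isSolvable_injective (f := Subgroup.inclusion hle)
      (Subgroup.inclusion_injective hle)
  have h1 := h.quo _ Subgroup.normalClosure_normal hsol
  have h2 : x ∈ Subgroup.normalClosure {x} :=
    Subgroup.subset_normalClosure (Set.mem_singleton x)
  rw [h1, Subgroup.mem_bot] at h2
  exact h2

/-- the second case -/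
theorem case2 (hC3 : T_C3) (h : CE G A B B0) {L : Subgroup G} (hL : A ≤ L) (hne : L ≠ ⊤) {t : G}
    (ht : t ∈ B) (nt : t ∉ B0) (htL : t ∈ L) :
    t * t = 1 ∧ (∀ x ∈ L, x ∈ B → x = 1 ∨ x = t) ∧ L ≤ MM A B0 := by
  have h0 : ∀ x ∈ L, x ∈ B0 → x = 1 := fun x hx hx0 =>
    kx h hL hne ht nt hx hx0 (L.mul_mem (L.mul_mem htL hx) (L.inv_mem htL))
  have htt : t * t = 1 := h0 _ (L.mul_mem htL htL) (h.two.2 t ht t ht nt nt)
  have htinv : t⁻¹ = t := inv_eq_of_mul_eq_one_left htt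
  have hLB : ∀ x ∈ L, x ∈ B → x = 1 ∨ x = t := by
    intro x hx hxB
    by_cases hx0 : x ∈ B0
    · exact Or.inl (h0 x hx hx0)
    · right
      have := h0 _ (L.mul_mem hx htL) (h.two.2 x hxB t ht hx0 nt)
      rw [← htinv]
      exact eq_inv_of_mul_eq_one_left this
  -- `t` normalises `A`
  have hnorm : ∀ a ∈ A, t⁻¹ * a * t ∈ A := by
    intro a ha
    obtain ⟨a', ha', -, b, hb, hbL, he⟩ := facL h hL (t⁻¹ * a * t)
      (L.mul_mem (L.mul_mem (L.inv_mem htL) (hL ha)) htL)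
    rcases hLB b hbL hb with rfl | rfl
    · rw [he, mul_one]; exact ha'
    · exfalso
      have h1 : b⁻¹ * a = a' := by simpa using he
      have h2 : b = a * a'⁻¹ := by rw [← h1]; group
      have h3 : b ∈ A := by rw [h2]; exact A.mul_mem ha (A.inv_mem ha')
      exact nt (by rw [cap hC3 h h3 ht]; exact B0.one_mem)
  refine ⟨htt, hLB, ?_⟩
  have htM : t ∈ MM A B0 := by
    right
    intro s
    obtain ⟨b, hb, a, ha, rfl⟩ := fac' h s
    have h1 : b * a * t = (b * t) * (t⁻¹ * a * t) := by group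
    rw [h1, memS1 hC3 h hb ha, memS1 hC3 h (B.mul_mem hb ht) (hnorm a ha),
      in_B0' h hb ht nt, not_not]
  intro g hg
  obtain ⟨a, ha, -, b, hb, hbL, rfl⟩ := facL h hL g hg
  refine (MM A B0).mul_mem (SG_le (A_le A B0 ha)) ?_
  rcases hLB b hbL hb with rfl | rfl
  · exact (MM A B0).one_mem
  · exact htM

/-- the first case -/
theorem case1 (hC3 : T_C3) (h : CE G A B B0) {L : Subgroup G} (hL : A ≤ L)
    (hB : ∀ x ∈ L, x ∈ B → x ∈ B0) : L ≤ SG A B0 := by
  have h1 : ∀ g ∈ L, ∀ s ∈ S1 A B0, s * g ∈ S1 A B0 := by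
    rintro g hg _ ⟨b, hb, a, ha, rfl⟩
    obtain ⟨b', hb', a', ha', he⟩ := fac' h (a * g)
    have h2 : b' = a * g * a'⁻¹ := by rw [he, mul_inv_cancel_right]
    have h3 : b' ∈ L := by
      rw [h2]
      exact L.mul_mem (L.mul_mem (hL ha) hg) (L.inv_mem (hL ha'))
    refine ⟨b * b', B0.mul_mem hb (hB b' h3 hb'), a', ha', ?_⟩
    rw [mul_assoc, he, mul_assoc]
  intro g hg s
  constructor
  · exact h1 g hg s
  · intro hs
    have := h1 g⁻¹ (L.inv_mem hg) _ hs
    rwa [mul_inv_cancel_right] at this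

theorem max' (hC3 : T_C3) (h : CE G A B B0) {L : Subgroup G} (hL : A ≤ L) (hne : L ≠ ⊤) :
    L ≤ MM A B0 := by
  by_cases hB : ∀ x ∈ L, x ∈ B → x ∈ B0
  · exact (case1 hC3 h hL hB).trans SG_le
  · push Not at hB
    obtain ⟨t, htL, ht, nt⟩ := hB
    exact (case2 hC3 h hL hne ht nt htL).2.2

theorem MM_ne (hS2 : T_S2) (hC3 : T_C3) (hC4 : T_C4) (h : CE G A B B0) : MM A B0 ≠ ⊤ := by
  intro hM
  obtain ⟨⟨t, ht, nt⟩, -, -⟩ := hC4 G A B B0 h
  have hne : SG A B0 ≠ ⊤ := by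
    intro hS
    have h1 : t ∈ SG A B0 := by rw [hS]; exact Subgroup.mem_top t
    have h2 : (1 : G) ∈ S1 A B0 := ⟨1, B0.one_mem, 1, A.one_mem, by rw [mul_one]⟩
    have h3 := (h1 1).1 h2
    rw [one_mul, ← mul_one t] at h3
    exact nt ((memS1 hC3 h ht A.one_mem).1 h3)
  refine not_nor hS2 h (A_le A B0) hne ?_
  constructor
  intro n hn g
  have hg : g ∈ MM A B0 := by rw [hM]; exact Subgroup.mem_top g
  rcases hg with hg | hg
  · exact (SG A B0).mul_mem ((SG A B0).mul_mem hg hn) ((SG A B0).inv_mem hg)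
  · intro s
    have h1 := hg s
    have h2 := hn (s * g)
    have h3 := hg (s * g * n * g⁻¹)
    rw [inv_mul_cancel_right] at h3
    have h4 : s * (g * n * g⁻¹) = s * g * n * g⁻¹ := by group
    rw [h4, h3, h1, h2]

end

theorem pf_ov (hS2 : T_S2) (hC3 : T_C3) (hC4 : T_C4) : T_OV := by
  intro G _ A B B0 h
  have hne := MM_ne hS2 hC3 hC4 h
  have hAM : A ≤ MM A B0 := (A_le A B0).trans SG_le
  refine ⟨MM A B0, ⟨hAM, hne, fun L hL hL' => max' hC3 h hL hL', ?_⟩, ?_⟩
  · intro g hg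
    have := h.fin
    -- the conjugate `g⁻¹ M g`
    let M' : Subgroup G := (MM A B0).map (MulAut.conj g⁻¹).toMonoidHom
    have hM' : ∀ x, x ∈ M' ↔ g * x * g⁻¹ ∈ MM A B0 := by
      intro x
      constructor
      · rintro ⟨y, hy, rfl⟩
        have h1 : g * ((MulAut.conj g⁻¹).toMonoidHom y) * g⁻¹ = y := by
          simp
          group
        rw [h1]
        exact hy
      · intro hx
        refine ⟨g * x * g⁻¹, hx, ?_⟩
        simp
        group
    have h1 : A ≤ M' := fun a ha => (hM' a).2 (hg a ha)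
    have h2 : M' ≠ ⊤ := by
      intro hh
      apply hne
      rw [Subgroup.eq_top_iff']
      intro x
      have h3 : g⁻¹ * x * g ∈ M' := by rw [hh]; exact Subgroup.mem_top _
      have h4 := (hM' _).1 h3
      have h5 : g * (g⁻¹ * x * g) * g⁻¹ = x := by group
      rwa [h5] at h4
    have h3 : M' ≤ MM A B0 := max' hC3 h h1 h2
    have h4 : Nat.card M' = Nat.card (MM A B0) := by
      refine Nat.card_congr (Subgroup.equivMapOfInjective _ _ ?_).symm.toEquiv
      exact (MulAut.conj g⁻¹).injective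
    have h5 : M' = MM A B0 := Subgroup.eq_of_le_of_card_ge h3 h4.ge
    -- the normaliser
    have hN : ∀ x, x ∈ MM A B0 ↔ g * x * g⁻¹ ∈ MM A B0 := by
      intro x
      rw [← hM' x, h5]
    have hgN : g ∈ Subgroup.normalizer (MM A B0 : Set G) := Subgroup.mem_normalizer_iff.2 hN
    have h6 : Subgroup.normalizer (MM A B0 : Set G) ≠ ⊤ := by
      intro hh
      exact not_nor hS2 h hAM hne (Subgroup.normalizer_eq_top_iff.1 hh)
    exact max' hC3 h (hAM.trans Subgroup.le_normalizer) h6 hgN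
  · by_cases hB : ∀ x ∈ MM A B0, x ∈ B → x ∈ B0
    · left
      refine ⟨hB, ?_⟩
      intro t ht nt x hx hxB htx
      exact kx h hAM hne ht nt hx (hB x hx hxB) htx
    · right
      push Not at hB
      obtain ⟨t, htM, ht, nt⟩ := hB
      obtain ⟨c1, c2, -⟩ := case2 hC3 h hAM hne ht nt htM
      exact ⟨t, ht, nt, c1, htM, c2⟩

end Pool.Agent.H21.FK
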